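import Mathlib
import Pool.Agent.Work.MP_71a505_nt.Curve
import Pool.Agent.Work.MP_71a505_core.Reg0
import Pool.Agent.Work.MP_71a505_fin.Z1A

namespace Pool.Agent.Results.MP_71a505_nt.NoTwoSix

open Pool.Agent.Work.MP_71a505_nt Pool.Agent.Work.MP_71a505_up Pool.Agent.Work.MP_71a505_core

/-- `{a, b, c}` is a Diophantine triple: three distinct positive integers such that
`ab + 1`, `ac + 1`, `bc + 1` are squares. -/
def IsTriple (a b c : ℕ) : Prop :=
  0 < a ∧ 0 < b ∧ 0 < c ∧ a ≠ b ∧ a ≠ c ∧ b ≠ c ∧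
    IsSquare (a * b + 1) ∧ IsSquare (a * c + 1) ∧ IsSquare (b * c + 1)

/-- The elliptic curve induced by `a, b, c`, in the Weierstrass form
`Y ^ 2 = (X + ab)(X + ac)(X + bc)`: the image of `y ^ 2 = (ax+1)(bx+1)(cx+1)` under
`(x, y) ↦ (abc x, abc y)` (see `curve_equation`). -/
def curve (a b c : ℕ) : WeierstrassCurve.Affine ℚ where
  a₁ := 0
  a₂ := (a : ℚ) * b + a * c + b * c
  a₃ := 0
  a₄ := (a : ℚ) * b * c * (a + b + c)
  a₆ := ((a : ℚ) * b * c) ^ 2

/-- The curve has a rational point of order three. -/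
def HasOrderThree (a b c : ℕ) : Prop :=
  ∃ P : (curve a b c).Point, P ≠ 0 ∧ (3 : ℕ) • P = 0

/-- The torsion subgroup of the group of rational points is `ℤ/2 × ℤ/6`. -/
def TorsionIsTwoSix (a b c : ℕ) : Prop :=
  Nonempty (AddCommGroup.torsion (curve a b c).Point ≃+ ZMod 2 × ZMod 6)

/-- The curve is the right one. -/
theorem curve_equation {a b c : ℕ} (ha : 0 < a) (hb : 0 < b) (hc : 0 < c) (x y : ℚ) :
    (curve a b c).Equation (a * b * c * x) (a * b * c * y) ↔
      y ^ 2 = (a * x + 1) * (b * x + 1) * (c * x + 1) := by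
  rw [WeierstrassCurve.Affine.equation_iff]
  have ha' : (a : ℚ) ≠ 0 := by exact_mod_cast ha.ne'
  have hb' : (b : ℚ) ≠ 0 := by exact_mod_cast hb.ne'
  have hc' : (c : ℚ) ≠ 0 := by exact_mod_cast hc.ne'
  have hq : ((a : ℚ) * b * c) ^ 2 ≠ 0 := by positivity
  simp only [curve]
  constructor
  · intro h
    apply mul_left_cancel₀ hq
    linear_combination h
  · intro h
    linear_combination ((a : ℚ) * b * c) ^ 2 * h

theorem curve_eq (a b c : ℕ) : curve a b c = inducedCurve a b c := by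
  simp only [curve, inducedCurve]
  push_cast
  rfl

theorem curve_swap (a b c : ℕ) : curve a b c = curve b a c := by
  simp only [curve]
  rw [show (a : ℚ) * b + a * c + b * c = b * a + b * c + a * c by ring,
    show (a : ℚ) * b * c * (a + b + c) = b * a * c * (b + a + c) by ring,
    show ((a : ℚ) * b * c) ^ 2 = (b * a * c) ^ 2 by ring]

theorem curve_swap' (a b c : ℕ) : curve a b c = curve a c b := by
  simp only [curve]
  rw [show (a : ℚ) * b + a * c + b * c = a * c + a * b + c * b by ring,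
    show (a : ℚ) * b * c * (a + b + c) = a * c * b * (a + c + b) by ring,
    show ((a : ℚ) * b * c) ^ 2 = (a * c * b) ^ 2 by ring]

theorem data_of_hasOrderThree {a b c : ℕ} (h : HasOrderThree a b c) :
    ∃ x l m : ℤ, Data a b c x l m := by
  unfold HasOrderThree at h
  rw [curve_eq] at h
  obtain ⟨P, hP, h3P⟩ := h
  exact data_of_point hP h3P

theorem sq3_of_isTriple {a b c : ℕ} (h : IsTriple a b c) :
    ∃ r s t : ℤ, Sq3 (a : ℤ) (b : ℤ) (c : ℤ) r s t := by
  obtain ⟨ha, hb, hc, -, -, -, ⟨r, hr⟩, ⟨s, hs⟩, ⟨t, ht⟩⟩ := h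
  have pos : ∀ {n k : ℕ}, n + 1 = k * k → 0 < k := by
    intro n k h
    rcases Nat.eq_zero_or_pos k with h0 | h0
    · rw [h0] at h; simp at h
    · exact h0
  refine ⟨r, s, t, by positivity, by positivity, by positivity, ?_, ?_, ?_, ?_, ?_, ?_⟩
  · exact_mod_cast pos hr
  · exact_mod_cast pos hs
  · exact_mod_cast pos ht
  · rw [sq]; exact_mod_cast hr
  · rw [sq]; exact_mod_cast hs
  · rw [sq]; exact_mod_cast ht

theorem no_three_sorted {a b c : ℕ} (h : IsTriple a b c) (hab : a < b) (hbc : b < c)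
    (h3 : HasOrderThree a b c) : False := by
  obtain ⟨x, l, m, hD⟩ := data_of_hasOrderThree h3
  obtain ⟨r, s, t, hS⟩ := sq3_of_isTriple h
  have ha : (0 : ℤ) < a := by exact_mod_cast h.1
  have hab' : (a : ℤ) < b := by exact_mod_cast hab
  have hbc' : (b : ℤ) < c := by exact_mod_cast hbc
  obtain ⟨W, e, h', α, β, γ, δ, d, g, x, y, z, xb, yb, xc, F⟩ := full_of hS ha hab' hbc' hD
  exact Pool.Agent.Work.MP_71a505_fin.Z1.no_full F

theorem IsTriple.swap {a b c : ℕ} (h : IsTriple a b c) : IsTriple b a c := by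
  obtain ⟨ha, hb, hc, h1, h2, h3, h4, h5, h6⟩ := h
  exact ⟨hb, ha, hc, h1.symm, h3, h2, by rw [mul_comm]; exact h4, h6, h5⟩

theorem IsTriple.swap' {a b c : ℕ} (h : IsTriple a b c) : IsTriple a c b := by
  obtain ⟨ha, hb, hc, h1, h2, h3, h4, h5, h6⟩ := h
  exact ⟨ha, hc, hb, h2, h1, h3.symm, h5, h4, by rw [mul_comm]; exact h6⟩

theorem HasOrderThree.swap {a b c : ℕ} (h : HasOrderThree a b c) : HasOrderThree b a c := by
  unfold HasOrderThree at *
  rw [curve_swap] at h
  exact h

theorem HasOrderThree.swap' {a b c : ℕ} (h : HasOrderThree a b c) : HasOrderThree a c b := by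
  unfold HasOrderThree at *
  rw [curve_swap'] at h
  exact h

/-- no point of order three -/
theorem no_three {a b c : ℕ} (h : IsTriple a b c) : ¬ HasOrderThree a b c := by
  intro h3
  have hab := h.2.2.2.1
  have hac := h.2.2.2.2.1
  have hbc := h.2.2.2.2.2.1
  rcases Nat.lt_or_gt_of_ne hab with h1 | h1 <;> rcases Nat.lt_or_gt_of_ne hbc with h2 | h2
  · exact no_three_sorted h h1 h2 h3
  · rcases Nat.lt_or_gt_of_ne hac with h4 | h4
    · exact no_three_sorted h.swap' h4 h2 h3.swap'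
    · exact no_three_sorted h.swap'.swap h4 h1 h3.swap'.swap
  · rcases Nat.lt_or_gt_of_ne hac with h4 | h4
    · exact no_three_sorted h.swap h1 h4 h3.swap
    · exact no_three_sorted h.swap.swap' h2 h4 h3.swap.swap'
  · exact no_three_sorted h.swap.swap'.swap h2 h1 h3.swap.swap'.swap

/-- Main result: the induced curve of a Diophantine triple has no rational point of order three;
in particular its torsion subgroup is not `ℤ/2 × ℤ/6`. -/
theorem result :
    (∀ a b c : ℕ, IsTriple a b c → ¬ TorsionIsTwoSix a b c) ∧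
    (∀ a b c : ℕ, IsTriple a b c → ¬ HasOrderThree a b c) := by
  refine ⟨?_, fun a b c h => no_three h⟩
  rintro a b c h ⟨e⟩
  exact no_three h (exists_three_of_equiv e)

end Pool.Agent.Results.MP_71a505_nt.NoTwoSix
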